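import Pool.Agent.helper69.SN.SpecA

/-!
# sn:aZER, sn:aALL: the multi-affine polynomial at `0` (project sn, MP_d2d7b9) (helper39)
-/

set_option linter.unusedVariables false

namespace Pool.Agent.helper69.SN

open Pool.Agent.helper83.SC

theorem aZER_mD {m : ℕ} (M : Fin m → Mat m) (j : Fin m) (h : M j = 0) : mD M = 0 := by
  unfold mD
  rw [Finset.sum_eq_zero, mul_zero]
  intro σ _
  refine Matrix.det_eq_zero_of_row_eq_zero (σ.symm j) fun k => ?_
  simp [h]

theorem aZER_slot {m n : ℕ} (B : Fin n → Mat m) (T : Finset (Fin n)) (hT : T.card < m) :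
    mD (slot B T (0 : Mat m)) = 0 := by
  refine aZER_mD _ ⟨T.card, hT⟩ ?_
  unfold slot
  simp

theorem aZER : aZER_stmt := by
  intro m n B S hS hB
  unfold Ph
  refine Finset.sum_eq_zero fun T _ => ?_
  rcases lt_trichotomy T.card m with h | h | h
  · rw [aZER_slot B T h, mul_zero]
  · have hex : ∃ i ∈ T, i ∉ S := by
      by_contra hcon
      push Not at hcon
      have h1 : T.card ≤ S.card := Finset.card_le_card hcon
      omega
    obtain ⟨i, hiT, hiS⟩ := hex
    have hr : i ∈ Set.range (T.orderEmbOfFin rfl) := by
      rw [Finset.range_orderEmbOfFin]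
      exact hiT
    obtain ⟨j, hj⟩ := hr
    have hjm : (j : ℕ) < m := by
      have := j.2
      omega
    rw [aZER_mD (slot B T 0) ⟨j, hjm⟩ (by
      unfold slot
      simp only [j.2, dite_true]
      rw [show (⟨(j : ℕ), j.2⟩ : Fin T.card) = j from rfl, hj]
      exact hB i hiS), mul_zero]
  · rw [Nat.descFactorial_eq_zero_iff_lt.2 h]
    simp

theorem aALL : aALL_stmt := by
  intro m B
  unfold Ph
  rw [Finset.sum_eq_single (Finset.univ : Finset (Fin m))]
  · have h1 : slot B Finset.univ (0 : Mat m) = B := by
      funext j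
      have hj : (j : ℕ) < (Finset.univ : Finset (Fin m)).card := by
        rw [Finset.card_fin]
        exact j.2
      unfold slot
      simp only [hj, dite_true]
      congr 1
      have h2 := Finset.orderEmbOfFin_unique' (s := (Finset.univ : Finset (Fin m))) rfl
        (f := (Fin.castOrderIso (Finset.card_fin m)).toOrderEmbedding) (fun x => Finset.mem_univ _)
      rw [← h2]
      rfl
    rw [h1, Finset.card_fin, Nat.descFactorial_self]
  · intro T _ hT
    have hc : T.card < m := by
      have h0 : T ⊂ Finset.univ := Finset.ssubset_univ_iff.2 hT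
      have h1 := Finset.card_lt_card h0
      rwa [Finset.card_fin] at h1
    rw [aZER_slot B T hc, mul_zero]
  · intro h
    exact absurd (Finset.mem_univ _) h

end Pool.Agent.helper69.SN
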