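import Pool.Agent.helper28.SN.SpecC

/-!
# sn:cPRJ: smooth convex functions of the projection to a subspace (project sn, MP_d2d7b9) (helper39)
-/

set_option autoImplicit false

open scoped Pointwise ContDiff
open MeasureTheory Set Filter Topology Pool.Agent.helper83.SC Pool.Agent.helper69.SN

set_option linter.unusedVariables false

namespace Pool.Agent.helper28.SN

theorem cPRJ_sum {m : ℕ} (v : E m) : v = ∑ j, v j • e j := by
  ext i
  simp only [WithLp.ofLp_sum, Finset.sum_apply, WithLp.ofLp_smul, Pi.smul_apply, smul_eq_mul]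
  rw [Finset.sum_eq_single i]
  · simp [e]
  · intro j _ hj
    simp [e, Ne.symm hj]
  · intro h
    exact absurd (Finset.mem_univ _) h

theorem cPRJ_fd {m : ℕ} {f : E m → ℝ} (v x : E m) : fderiv ℝ f x v = ∑ j, v j * pd j f x := by
  conv_lhs => rw [cPRJ_sum v]
  rw [map_sum]
  refine Finset.sum_congr rfl fun j _ => ?_
  rw [map_smul]
  rfl

theorem cPRJ_hess (hPD : cPD_stmt) {m : ℕ} {f : E m → ℝ} (hf : ContDiff ℝ ∞ f) {v : E m}
    (h : ∀ x, fderiv ℝ f x v = 0) (x : E m) : (hess f x).mulVec (fun i => v i) = 0 := by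
  funext i
  have h1 : (fun y => ∑ j, v j * pd j f y) = fun _ => (0 : ℝ) := by
    funext y
    rw [← cPRJ_fd, h y]
  have h2 : pd i (fun y => ∑ j, v j * pd j f y) x = 0 := by
    rw [h1]
    unfold pd
    simp
  have h3 : pd i (fun y => ∑ j, v j * pd j f y) x = ∑ j, v j * pd i (pd j f) x := by
    have hd : ∀ j, HasFDerivAt (pd j f) (fderiv ℝ (pd j f) x) x := fun j =>
      (((hPD j j f hf).1.differentiable (by norm_num)) x).hasFDerivAt
    have h4 : HasFDerivAt (fun y => ∑ j, v j * pd j f y) (∑ j, v j • fderiv ℝ (pd j f) x) x :=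
      HasFDerivAt.fun_sum fun j _ => (hd j).const_mul (v j)
    show fderiv ℝ (fun y => ∑ j, v j * pd j f y) x (e i) = _
    rw [h4.fderiv]
    simp only [ContinuousLinearMap.sum_apply, ContinuousLinearMap.smul_apply, smul_eq_mul]
    rfl
  show ∑ j, hess f x i j * v j = 0
  rw [← h2, h3]
  refine Finset.sum_congr rfl fun j _ => ?_
  show pd i (pd j f) x * v j = v j * pd i (pd j f) x
  ring

theorem cPRJ (hPD : cPD_stmt) (hS : exists_smooth_stmt) : cPRJ_stmt := by
  intro m D h hh hD
  obtain ⟨g, hg, hgl⟩ := hS hh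
  have hsm : ∀ k, ContDiff ℝ ∞ (fun x => g k (D.starProjection x)) := fun k =>
    (hg k).1.comp D.starProjection.contDiff
  refine ⟨fun k x => g k (D.starProjection x), fun k => ⟨hsm k, ?_⟩, fun x => ?_, fun k x v hv => ?_⟩
  · have h1 := (hg k).2.comp_linearMap (D.starProjection : E m →L[ℝ] E m).toLinearMap
    rw [Set.preimage_univ] at h1
    exact h1
  · rw [hD x]
    exact hgl _
  · refine cPRJ_hess hPD (hsm k) (fun y => ?_) x
    have h1 : HasFDerivAt (fun x => g k (D.starProjection x))
        ((fderiv ℝ (g k) (D.starProjection y)).comp D.starProjection) y :=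
      ((((hg k).1.differentiable (by norm_num)) _).hasFDerivAt).comp y D.starProjection.hasFDerivAt
    rw [h1.fderiv, ContinuousLinearMap.comp_apply,
      (Submodule.starProjection_apply_eq_zero_iff D).2 hv, map_zero]

end Pool.Agent.helper28.SN
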